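import Pool.Agent.W2helper16.KM.E

/-! An elementary description of the Fourier transform of square integrable functions. -/

set_option autoImplicit false

open MeasureTheory Set Filter Topology Metric FourierTransform SchwartzMap
open scoped ENNReal NNReal RealInnerProductSpace

namespace Pool.Agent.W2helper16.KM

/-- `φ` is the Fourier transform of `f` -/
def IsFT {n : ℕ} (f φ : E n → ℂ) : Prop :=
  MemLp f 2 volume ∧ MemLp φ 2 volume ∧ ∀ g : E n → ℝ,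
    ContDiff ℝ ((⊤ : ℕ∞) : WithTop ℕ∞) g → HasCompactSupport g →
    ∫ x, f x * (∫ ξ, Complex.exp (-(2 * Real.pi * ⟪x, ξ⟫ : ℝ) * Complex.I) * g ξ) =
      ∫ ξ, φ ξ * g ξ

lemma isFT_eq {n : ℕ} {f φ : E n → ℂ} (h : IsFT f φ) :
    ∀ᵐ ξ : E n, (𝓕 (h.1.toLp f) : L2E n) ξ = φ ξ := by
  have h1 : LocallyIntegrable (fun ξ : E n => (𝓕 (h.1.toLp f) : L2E n) ξ) volume :=
    (Lp.memLp _).locallyIntegrable (by norm_num)
  have h2 : LocallyIntegrable φ volume := h.2.1.locallyIntegrable (by norm_num)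
  refine ae_eq_of_integral_contDiff_smul_eq h1 h2 fun g hg hgc => ?_
  have hgC : HasCompactSupport fun ξ => ((g ξ : ℝ) : ℂ) := hgc.comp_left Complex.ofReal_zero
  have hgS : ContDiff ℝ ((⊤ : ℕ∞) : WithTop ℕ∞) fun ξ => ((g ξ : ℝ) : ℂ) :=
    Complex.ofRealCLM.contDiff.comp hg
  set G : 𝓢(E n, ℂ) := hgC.toSchwartzMap hgS with hG
  have hGa : ∀ ξ, G ξ = ((g ξ : ℝ) : ℂ) := fun ξ => rfl
  have e1 : (𝓕 (h.1.toLp f : 𝓢'(E n, ℂ)) : 𝓢'(E n, ℂ)) G =
      ((𝓕 (h.1.toLp f) : L2E n) : 𝓢'(E n, ℂ)) G := by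
    rw [Lp.fourier_toTemperedDistribution_eq]
  rw [TemperedDistribution.fourier_apply, Lp.toTemperedDistribution_apply,
    Lp.toTemperedDistribution_apply] at e1
  have e2 : ∫ x, (𝓕 G : 𝓢(E n, ℂ)) x • (h.1.toLp f : L2E n) x =
      ∫ x, f x * (∫ ξ, Complex.exp (-(2 * Real.pi * ⟪x, ξ⟫ : ℝ) * Complex.I) * g ξ) := by
    refine integral_congr_ae ?_
    filter_upwards [h.1.coeFn_toLp] with x hx
    rw [hx, smul_eq_mul, mul_comm, SchwartzMap.fourier_coe, Real.fourier_eq']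
    congr 1
    refine integral_congr_ae (Eventually.of_forall fun ξ => ?_)
    simp only [hGa, smul_eq_mul]
    rw [real_inner_comm x ξ]
    congr 2
    push_cast
    ring
  rw [e2, h.2.2 g hg hgc] at e1
  calc ∫ ξ, g ξ • (𝓕 (h.1.toLp f) : L2E n) ξ = ∫ ξ, G ξ • (𝓕 (h.1.toLp f) : L2E n) ξ := by
        refine integral_congr_ae (Eventually.of_forall fun ξ => ?_)
        simp only [hGa, smul_eq_mul, Complex.real_smul]
    _ = ∫ ξ, φ ξ * g ξ := e1.symm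
    _ = _ := by
        refine integral_congr_ae (Eventually.of_forall fun ξ => ?_)
        simp only [Complex.real_smul]
        ring

/-- `F` is a Fourier majorant of `f` -/
def IsMajorant {n : ℕ} (f F : E n → ℂ) : Prop :=
  ∃ φ Φ : E n → ℂ, IsFT f φ ∧ IsFT F Φ ∧ ∀ᵐ ξ : E n, (Φ ξ).im = 0 ∧ ‖φ ξ‖ ≤ (Φ ξ).re

lemma maj_of {n : ℕ} {f F : E n → ℂ} (h : IsMajorant f F) :
    ∃ (hf : MemLp f 2 volume) (hF : MemLp F 2 volume), Maj (hf.toLp f) (hF.toLp F) := by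
  obtain ⟨φ, Φ, h1, h2, h3⟩ := h
  refine ⟨h1.1, h2.1, ?_⟩
  filter_upwards [isFT_eq h1, isFT_eq h2, h3] with ξ e1 e2 e3
  rw [e1, e2]
  exact e3

end Pool.Agent.W2helper16.KM
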