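import Mathlib

/-! A comparison of pairings with Schwartz functions, for square integrable functions with a
Fourier majorant. -/

set_option autoImplicit false

open MeasureTheory Set Filter Topology Metric FourierTransform SchwartzMap
open scoped ENNReal NNReal RealInnerProductSpace

namespace Pool.Agent.W2helper16.KM

/-- Euclidean space -/
abbrev E (n : ℕ) := EuclideanSpace ℝ (Fin n)

/-- square integrable functions -/
noncomputable abbrev L2E (n : ℕ) := Lp (α := E n) ℂ 2 volume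

variable {n : ℕ}

/-- the Fourier transform of `F` is real and at least the absolute value of that of `f` -/
def Maj (f F : L2E n) : Prop :=
  ∀ᵐ ξ : E n, ((𝓕 F : L2E n) ξ).im = 0 ∧
    ‖(𝓕 f : L2E n) ξ‖ ≤ ((𝓕 F : L2E n) ξ).re

/-- the pairing with a function with a larger Fourier transform -/
lemma pairing_le {f F : L2E n} (h : Maj f F) {g0 ga : 𝓢(E n, ℂ)}
    (hg : ∀ ξ, ((‖𝓕 ga ξ‖ : ℝ) : ℂ) = 𝓕 g0 ξ) :
    ‖(inner ℂ (ga.toLp 2 volume : L2E n) f : ℂ)‖ ≤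
      ‖(inner ℂ (g0.toLp 2 volume : L2E n) F : ℂ)‖ := by
  have e1 := Lp.inner_fourier_eq (ga.toLp 2 volume : L2E n) f
  have e2 := Lp.inner_fourier_eq (g0.toLp 2 volume : L2E n) F
  rw [SchwartzMap.toLp_fourier_eq, L2.inner_def] at e1 e2
  rw [← e1, ← e2]
  have h0 : ∀ᵐ ξ : E n, (inner ℂ (((𝓕 g0 : 𝓢(E n, ℂ)).toLp 2 volume : L2E n) ξ) ((𝓕 F : L2E n) ξ) : ℂ) =
      ((‖𝓕 ga ξ‖ * ((𝓕 F : L2E n) ξ).re : ℝ) : ℂ) := by
    filter_upwards [h, (𝓕 g0 : 𝓢(E n, ℂ)).coeFn_toLp 2 volume] with ξ h1 h2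
    rw [h2, RCLike.inner_apply]
    have h3 : ((𝓕 g0 : 𝓢(E n, ℂ)) ξ) = ((‖𝓕 ga ξ‖ : ℝ) : ℂ) := (hg ξ).symm
    rw [h3]
    have h4 : ((𝓕 F : L2E n) ξ) = ((((𝓕 F : L2E n) ξ).re : ℝ) : ℂ) := by
      apply Complex.ext <;> simp [h1.1]
    rw [h4]
    simp [mul_comm]
  have hint : Integrable (fun ξ => ‖𝓕 ga ξ‖ * ((𝓕 F : L2E n) ξ).re) := by
    have := L2.integrable_inner (𝕜 := ℂ) ((𝓕 g0 : 𝓢(E n, ℂ)).toLp 2 volume : L2E n) (𝓕 F : L2E n)
    have h5 := (this.congr h0).re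
    simpa using h5
  have hpos : 0 ≤ ∫ ξ, ‖𝓕 ga ξ‖ * ((𝓕 F : L2E n) ξ).re := by
    refine integral_nonneg_of_ae ?_
    filter_upwards [h] with ξ h1
    exact mul_nonneg (norm_nonneg _) ((norm_nonneg _).trans h1.2)
  have h0' : ∫ ξ : E n, ((‖𝓕 ga ξ‖ * ((𝓕 F : L2E n) ξ).re : ℝ) : ℂ) =
      ((∫ ξ : E n, ‖𝓕 ga ξ‖ * ((𝓕 F : L2E n) ξ).re : ℝ) : ℂ) := integral_ofReal
  rw [integral_congr_ae h0, h0', Complex.norm_real, Real.norm_of_nonneg hpos]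
  refine norm_integral_le_of_norm_le hint ?_
  filter_upwards [h, (𝓕 ga : 𝓢(E n, ℂ)).coeFn_toLp 2 volume] with ξ h1 h2
  rw [h2]
  refine (norm_inner_le_norm _ _).trans ?_
  exact mul_le_mul_of_nonneg_left h1.2 (norm_nonneg _)

/-- for nonnegative functions the pairing is the integral -/
lemma lintegral_le {f F : L2E n} (h : Maj f F)
    (hf : ∀ᵐ x : E n, ((‖f x‖ : ℝ) : ℂ) = f x) {g0 ga : 𝓢(E n, ℂ)}
    (hg : ∀ ξ, ((‖𝓕 ga ξ‖ : ℝ) : ℂ) = 𝓕 g0 ξ) (hga : ∀ x, ((‖ga x‖ : ℝ) : ℂ) = ga x) :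
    ∫⁻ x, ‖ga x‖ₑ * ‖f x‖ₑ ≤ ∫⁻ x, ‖g0 x‖ₑ * ‖F x‖ₑ := by
  have h1 := pairing_le h hg
  rw [L2.inner_def, L2.inner_def] at h1
  have h2 : ∀ᵐ x : E n, (inner ℂ ((ga.toLp 2 volume : L2E n) x) (f x) : ℂ) =
      ((‖ga x‖ * ‖f x‖ : ℝ) : ℂ) := by
    filter_upwards [hf, ga.coeFn_toLp 2 volume] with x h3 h4
    rw [h4, RCLike.inner_apply, ← hga x, ← h3]
    simp [mul_comm]
  have hint : Integrable (fun x => ‖ga x‖ * ‖f x‖) := by
    have := L2.integrable_inner (𝕜 := ℂ) (ga.toLp 2 volume : L2E n) f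
    have h5 := (this.congr h2).re
    simpa using h5
  have h2' : ∫ x, ((‖ga x‖ * ‖f x‖ : ℝ) : ℂ) = ((∫ x, ‖ga x‖ * ‖f x‖ : ℝ) : ℂ) := integral_ofReal
  rw [integral_congr_ae h2, h2', Complex.norm_real,
    Real.norm_of_nonneg (integral_nonneg fun x => by positivity)] at h1
  have h3 : ∫⁻ x, ‖ga x‖ₑ * ‖f x‖ₑ = ENNReal.ofReal (∫ x, ‖ga x‖ * ‖f x‖) := by
    rw [ofReal_integral_eq_lintegral_ofReal hint (Eventually.of_forall fun x => by positivity)]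
    refine lintegral_congr fun x => ?_
    rw [ENNReal.ofReal_mul (norm_nonneg _), ofReal_norm, ofReal_norm]
  rw [h3]
  refine (ENNReal.ofReal_le_ofReal h1).trans ?_
  rw [ofReal_norm]
  refine (enorm_integral_le_lintegral_enorm _).trans (le_of_eq (lintegral_congr_ae ?_))
  filter_upwards [g0.coeFn_toLp 2 volume] with x h4
  rw [h4, RCLike.inner_apply, enorm_mul]
  simp [mul_comm]

end Pool.Agent.W2helper16.KM
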