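import Pool.Agent.W2helper16.KM.A

/-! Bump functions adapted to tubes; their self convolutions. -/

set_option autoImplicit false

open MeasureTheory Set Filter Topology Metric FourierTransform SchwartzMap
open scoped ENNReal NNReal RealInnerProductSpace

namespace Pool.Agent.W2helper16.KM

variable {n : ℕ}

/-- the component orthogonal to `e` is divided by `δ` -/
noncomputable def st (δ : ℝ) (e : E n) : E n →L[ℝ] E n :=
  δ⁻¹ • ContinuousLinearMap.id ℝ (E n) + (1 - δ⁻¹) • (innerSL ℝ e).smulRight e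

lemma st_apply (δ : ℝ) (e y : E n) :
    st δ e y = (⟪y, e⟫ : ℝ) • e + δ⁻¹ • (y - (⟪y, e⟫ : ℝ) • e) := by
  simp only [st, add_apply, smul_apply,
    ContinuousLinearMap.id_apply, ContinuousLinearMap.smulRight_apply, innerSL_apply_apply]
  rw [real_inner_comm e y]
  module

lemma perp_inner {e : E n} (he : ‖e‖ = 1) (y : E n) :
    (⟪(⟪y, e⟫ : ℝ) • e, y - (⟪y, e⟫ : ℝ) • e⟫ : ℝ) = 0 := by
  rw [inner_smul_left, inner_sub_right, inner_smul_right, real_inner_self_eq_norm_sq, he,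
    real_inner_comm y e]
  simp

lemma st_sq {δ : ℝ} {e : E n} (he : ‖e‖ = 1) (y : E n) :
    ‖st δ e y‖ ^ 2 = (⟪y, e⟫ : ℝ) ^ 2 + (δ⁻¹ * ‖y - (⟪y, e⟫ : ℝ) • e‖) ^ 2 := by
  have h : (⟪(⟪y, e⟫ : ℝ) • e, δ⁻¹ • (y - (⟪y, e⟫ : ℝ) • e)⟫ : ℝ) = 0 := by
    rw [inner_smul_right, perp_inner he, mul_zero]
  rw [st_apply, norm_add_sq_real, h, norm_smul, norm_smul, he, Real.norm_eq_abs, mul_one, sq_abs,
    Real.norm_eq_abs, mul_pow, sq_abs, mul_pow]
  ring

lemma norm_sq_split {e : E n} (he : ‖e‖ = 1) (y : E n) :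
    ‖y‖ ^ 2 = (⟪y, e⟫ : ℝ) ^ 2 + ‖y - (⟪y, e⟫ : ℝ) • e‖ ^ 2 := by
  have h := st_sq (δ := 1) he y
  rw [st_apply] at h
  simpa using h

/-- the bump function -/
noncomputable def bp (n : ℕ) : ContDiffBump (0 : E n) := ⟨3, 4, by norm_num, by norm_num⟩

/-- the bump function of the tube -/
noncomputable def ps (δ : ℝ) (e a y : E n) : ℂ := ((bp n (st δ e (y - a)) : ℝ) : ℂ)

lemma ps_smooth (δ : ℝ) (e a : E n) : ContDiff ℝ ((⊤ : ℕ∞) : WithTop ℕ∞) (ps δ e a) := by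
  have h1 : ContDiff ℝ ((⊤ : ℕ∞) : WithTop ℕ∞) (fun y : E n => bp n (st δ e (y - a))) :=
    (bp n).contDiff.comp (g := fun y => bp n y) (f := fun y => st δ e (y - a))
      ((st δ e).contDiff.comp (contDiff_id.sub contDiff_const))
  exact Complex.ofRealCLM.contDiff.comp h1

lemma ps_zero {δ : ℝ} {e a y : E n} (h : 4 ≤ ‖st δ e (y - a)‖) : ps δ e a y = 0 := by
  rw [ps, (bp n).zero_of_le_dist (by rw [dist_zero_right]; exact h)]
  simp

lemma ps_one {δ : ℝ} {e a y : E n} (h : ‖st δ e (y - a)‖ ≤ 3) : ps δ e a y = 1 := by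
  rw [ps, (bp n).one_of_mem_closedBall (by rw [mem_closedBall, dist_zero_right]; exact h)]
  simp

lemma le_st {δ : ℝ} (hδ : 0 < δ) (hδ1 : δ ≤ 1) {e : E n} (he : ‖e‖ = 1) (y : E n) :
    ‖y‖ ≤ ‖st δ e y‖ := by
  refine abs_le_of_sq_le_sq' ?_ (norm_nonneg _) |>.2
  rw [st_sq he, norm_sq_split he y]
  have h1 : (1 : ℝ) ≤ δ⁻¹ := (one_le_inv₀ hδ).2 hδ1
  have h2 := norm_nonneg (y - (⟪y, e⟫ : ℝ) • e)
  gcongr
  nlinarith

lemma ps_supp {δ : ℝ} (hδ : 0 < δ) (hδ1 : δ ≤ 1) {e : E n} (he : ‖e‖ = 1) (a : E n) :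
    HasCompactSupport (ps δ e a) := by
  refine HasCompactSupport.intro (isCompact_closedBall a 4) fun y hy => ?_
  apply ps_zero
  rw [mem_closedBall, dist_eq_norm, not_le] at hy
  exact hy.le.trans (le_st hδ hδ1 he _)

/-- Schwartz version -/
noncomputable def psS {δ : ℝ} (hδ : 0 < δ) (hδ1 : δ ≤ 1) {e : E n} (he : ‖e‖ = 1) (a : E n) :
    𝓢(E n, ℂ) := (ps_supp hδ hδ1 he a).toSchwartzMap (ps_smooth δ e a)

lemma psS_apply {δ : ℝ} (hδ : 0 < δ) (hδ1 : δ ≤ 1) {e : E n} (he : ‖e‖ = 1) (a y : E n) :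
    psS hδ hδ1 he a y = ps δ e a y := rfl

lemma ps_trans (δ : ℝ) (e a : E n) : ps δ e a = ps δ e 0 ∘ (fun y => y + -a) := by
  ext y
  simp [ps, sub_eq_add_neg]

lemma ps_even (δ : ℝ) (e y : E n) : ps δ e 0 (-y) = ps δ e 0 y := by
  simp only [ps, sub_zero, map_neg]
  rw [(bp n).neg]

lemma fourier_ps_norm (δ : ℝ) (e a ξ : E n) : ‖𝓕 (ps δ e a) ξ‖ = ‖𝓕 (ps δ e 0) ξ‖ := by
  have h := VectorFourier.fourierIntegral_comp_add_right Real.fourierChar (volume : Measure (E n))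
    (innerₗ (E n)) (ps δ e 0) (-a)
  have h1 := congrFun h ξ
  rw [← ps_trans] at h1
  have h2 : 𝓕 (ps δ e a) ξ = VectorFourier.fourierIntegral Real.fourierChar volume (innerₗ (E n))
    (ps δ e a) ξ := rfl
  rw [h2, h1]
  simp only [Circle.norm_smul]
  rfl

lemma fourier_ps_conj (δ : ℝ) (e ξ : E n) :
    (starRingEnd ℂ) (𝓕 (ps δ e 0) ξ) = 𝓕 (ps δ e 0) ξ := by
  rw [Real.fourier_eq', ← integral_conj]
  rw [← integral_neg_eq_self (fun v => Complex.exp (((-2 * Real.pi * ⟪v, ξ⟫ : ℝ) : ℂ) *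
    Complex.I) • ps δ e 0 v)]
  refine integral_congr_ae (Eventually.of_forall fun v => ?_)
  simp only [smul_eq_mul, map_mul, ← Complex.exp_conj, Complex.conj_ofReal, Complex.conj_I,
    ps_even, inner_neg_left]
  congr 1
  · congr 1
    push_cast
    ring
  · simp only [ps, Complex.conj_ofReal]

/-- the self convolution -/
noncomputable def gS {δ : ℝ} (hδ : 0 < δ) (hδ1 : δ ≤ 1) {e : E n} (he : ‖e‖ = 1) (a : E n) :
    𝓢(E n, ℂ) :=
  SchwartzMap.convolution (ContinuousLinearMap.mul ℂ ℂ) (psS hδ hδ1 he 0) (psS hδ hδ1 he a)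

lemma gS_fourier {δ : ℝ} (hδ : 0 < δ) (hδ1 : δ ≤ 1) {e : E n} (he : ‖e‖ = 1) (a ξ : E n) :
    𝓕 (gS hδ hδ1 he a) ξ = 𝓕 (ps δ e 0) ξ * 𝓕 (ps δ e a) ξ := by
  rw [gS, SchwartzMap.fourier_convolution_apply]
  exact Real.fourier_mul_convolution_eq (psS hδ hδ1 he 0).integrable
    (psS hδ hδ1 he a).integrable ξ

lemma gS_pos {δ : ℝ} (hδ : 0 < δ) (hδ1 : δ ≤ 1) {e : E n} (he : ‖e‖ = 1) (a ξ : E n) :
    ((‖𝓕 (gS hδ hδ1 he a) ξ‖ : ℝ) : ℂ) = 𝓕 (gS hδ hδ1 he 0) ξ := by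
  rw [gS_fourier, gS_fourier, norm_mul, fourier_ps_norm δ e a ξ]
  have h1 : 𝓕 (ps δ e 0) ξ * 𝓕 (ps δ e 0) ξ =
      (starRingEnd ℂ) (𝓕 (ps δ e 0) ξ) * 𝓕 (ps δ e 0) ξ := by rw [fourier_ps_conj]
  rw [h1, ← Complex.normSq_eq_conj_mul_self, Complex.normSq_eq_norm_sq, sq]

/-- the real self convolution -/
noncomputable def gR (δ : ℝ) (e a y : E n) : ℝ :=
  ∫ t, bp n (st δ e t) * bp n (st δ e (y - t - a))

lemma gS_apply {δ : ℝ} (hδ : 0 < δ) (hδ1 : δ ≤ 1) {e : E n} (he : ‖e‖ = 1) (a y : E n) :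
    gS hδ hδ1 he a y = ((gR δ e a y : ℝ) : ℂ) := by
  have h0 : ∫ t, ((bp n (st δ e t) * bp n (st δ e (y - t - a)) : ℝ) : ℂ) =
      ((∫ t, bp n (st δ e t) * bp n (st δ e (y - t - a)) : ℝ) : ℂ) := integral_ofReal
  rw [gS, SchwartzMap.convolution_apply, convolution_def, gR, ← h0]
  refine integral_congr_ae (Eventually.of_forall fun t => ?_)
  simp only [ContinuousLinearMap.mul_apply', psS_apply, ps, sub_zero]
  push_cast
  rfl

lemma gR_nonneg (δ : ℝ) (e a y : E n) : 0 ≤ gR δ e a y :=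
  integral_nonneg fun t => mul_nonneg (bp n).nonneg (bp n).nonneg

lemma gS_real {δ : ℝ} (hδ : 0 < δ) (hδ1 : δ ≤ 1) {e : E n} (he : ‖e‖ = 1) (a y : E n) :
    ((‖gS hδ hδ1 he a y‖ : ℝ) : ℂ) = gS hδ hδ1 he a y := by
  rw [gS_apply, Complex.norm_real, Real.norm_of_nonneg (gR_nonneg _ _ _ _)]

/-- the closed tube of length `1` and radius `δ` -/
def tube {n : ℕ} (δ : ℝ) (e b : E n) : Set (E n) :=
  {y | |⟪y - b, e⟫| ≤ 1 / 2 ∧ ‖(y - b) - (⟪y - b, e⟫ : ℝ) • e‖ ≤ δ}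

/-- cylinders around the origin -/
def cyl {n : ℕ} (ℓ ρ : ℝ) (e : E n) : Set (E n) :=
  {y | |⟪y, e⟫| ≤ ℓ ∧ ‖y - (⟪y, e⟫ : ℝ) • e‖ ≤ ρ}

lemma cyl_closed (ℓ ρ : ℝ) (e : E n) : IsClosed (cyl ℓ ρ e) := by
  have h1 : Continuous fun y : E n => |(⟪y, e⟫ : ℝ)| := by fun_prop
  have h2 : Continuous fun y : E n => ‖y - (⟪y, e⟫ : ℝ) • e‖ := by fun_prop
  exact (isClosed_le h1 continuous_const).inter (isClosed_le h2 continuous_const)

lemma tube_closed (δ : ℝ) (e b : E n) : IsClosed (tube δ e b) := by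
  have h1 : Continuous fun y : E n => |(⟪y - b, e⟫ : ℝ)| := by fun_prop
  have h2 : Continuous fun y : E n => ‖(y - b) - (⟪y - b, e⟫ : ℝ) • e‖ := by fun_prop
  exact (isClosed_le h1 continuous_const).inter (isClosed_le h2 continuous_const)

lemma st_le_of_cyl {δ : ℝ} (hδ : 0 < δ) {e y : E n} (he : ‖e‖ = 1) (hy : y ∈ cyl (1 / 2) δ e) :
    ‖st δ e y‖ ≤ 3 / 2 := by
  refine abs_le_of_sq_le_sq' ?_ (by norm_num) |>.2
  rw [st_sq he]
  have h1 : (⟪y, e⟫ : ℝ) ^ 2 ≤ (1 / 2) ^ 2 := sq_le_sq.2 (by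
    rw [abs_of_pos (by norm_num : (0 : ℝ) < 1 / 2)]; exact hy.1)
  have h2 : δ⁻¹ * ‖y - (⟪y, e⟫ : ℝ) • e‖ ≤ 1 := by
    rw [inv_mul_le_iff₀ hδ, mul_one]; exact hy.2
  have h3 : 0 ≤ δ⁻¹ * ‖y - (⟪y, e⟫ : ℝ) • e‖ := by positivity
  nlinarith

lemma cyl_of_st {δ : ℝ} (hδ : 0 < δ) {e y : E n} (he : ‖e‖ = 1) {M : ℝ} (hM : 0 ≤ M)
    (hy : ‖st δ e y‖ ≤ M) : y ∈ cyl M (M * δ) e := by
  have h1 : ‖st δ e y‖ ^ 2 ≤ M ^ 2 := pow_le_pow_left₀ (norm_nonneg _) hy 2
  rw [st_sq he] at h1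
  constructor
  · exact abs_le_of_sq_le_sq (by nlinarith [sq_nonneg (δ⁻¹ * ‖y - (⟪y, e⟫ : ℝ) • e‖)]) hM
  · have h2 : δ⁻¹ * ‖y - (⟪y, e⟫ : ℝ) • e‖ ≤ M := by
      refine abs_le_of_sq_le_sq' ?_ hM |>.2
      nlinarith [sq_nonneg (⟪y, e⟫ : ℝ)]
    rw [inv_mul_le_iff₀ hδ] at h2
    linarith

lemma bump_cont (δ : ℝ) (e : E n) : Continuous fun y => bp n (st δ e y) :=
  (bp n).continuous.comp (st δ e).continuous

/-- the self convolution is large on the tube -/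
lemma gR_ge {δ : ℝ} (hδ : 0 < δ) (hδ1 : δ ≤ 1) {e : E n} (he : ‖e‖ = 1) {a y : E n}
    (hy : y ∈ tube δ e a) : volume (cyl (1 / 2) δ e) ≤ ENNReal.ofReal (gR δ e a y) := by
  have hint : Integrable fun t => bp n (st δ e t) * bp n (st δ e (y - t - a)) := by
    refine Continuous.integrable_of_hasCompactSupport ?_ ?_
    · exact (bump_cont δ e).mul ((bump_cont δ e).comp (by fun_prop : Continuous fun t => y - t - a))
    · refine HasCompactSupport.intro (isCompact_closedBall 0 4) fun t ht => ?_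
      rw [mem_closedBall, dist_zero_right, not_le] at ht
      rw [(bp n).zero_of_le_dist, zero_mul]
      rw [dist_zero_right]
      exact ht.le.trans (le_st hδ hδ1 he t)
  rw [gR, ofReal_integral_eq_lintegral_ofReal hint
    (Eventually.of_forall fun t => mul_nonneg (bp n).nonneg (bp n).nonneg),
    ← lintegral_indicator_one (cyl_closed _ _ _).measurableSet]
  refine lintegral_mono fun t => ?_
  by_cases ht : t ∈ cyl (1 / 2) δ e
  · rw [indicator_of_mem ht]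
    have h1 := st_le_of_cyl hδ he ht
    have h2 : y - a ∈ cyl (1 / 2) δ e := hy
    have h3 := st_le_of_cyl hδ he h2
    have h4 : ‖st δ e (y - t - a)‖ ≤ 3 := by
      have : y - t - a = (y - a) - t := by abel
      rw [this, map_sub]
      refine (norm_sub_le _ _).trans ?_
      linarith
    have h5 : ‖st δ e t‖ ≤ 3 := by linarith
    have h6 : bp n (st δ e t) = 1 :=
      (bp n).one_of_mem_closedBall (by rw [mem_closedBall, dist_zero_right]; exact h5)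
    have h7 : bp n (st δ e (y - t - a)) = 1 :=
      (bp n).one_of_mem_closedBall (by rw [mem_closedBall, dist_zero_right]; exact h4)
    rw [h6, h7]
    simp
  · rw [indicator_of_notMem ht]; exact bot_le

/-- the self convolution is bounded by the measure of a cylinder, and it vanishes outside of a
cylinder -/
lemma gR_le {δ : ℝ} (hδ : 0 < δ) (hδ1 : δ ≤ 1) {e : E n} (he : ‖e‖ = 1) (y : E n) :
    ENNReal.ofReal (gR δ e 0 y) ≤
      (cyl 8 (8 * δ) e).indicator (fun _ => volume (cyl 4 (4 * δ) e)) y := by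
  by_cases hy : y ∈ cyl 8 (8 * δ) e
  · rw [indicator_of_mem hy]
    have hint : Integrable fun t => bp n (st δ e t) * bp n (st δ e (y - t - 0)) := by
      refine Continuous.integrable_of_hasCompactSupport ?_ ?_
      · exact (bump_cont δ e).mul ((bump_cont δ e).comp
          (by fun_prop : Continuous fun t => y - t - 0))
      · refine HasCompactSupport.intro (isCompact_closedBall 0 4) fun t ht => ?_
        rw [mem_closedBall, dist_zero_right, not_le] at ht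
        rw [(bp n).zero_of_le_dist, zero_mul]
        rw [dist_zero_right]
        exact ht.le.trans (le_st hδ hδ1 he t)
    rw [gR, ofReal_integral_eq_lintegral_ofReal hint
      (Eventually.of_forall fun t => mul_nonneg (bp n).nonneg (bp n).nonneg),
      ← lintegral_indicator_one (cyl_closed _ _ _).measurableSet]
    refine lintegral_mono fun t => ?_
    by_cases ht : t ∈ cyl 4 (4 * δ) e
    · rw [indicator_of_mem ht, Pi.one_apply, ← ENNReal.ofReal_one]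
      exact ENNReal.ofReal_le_ofReal (mul_le_one₀ (bp n).le_one (bp n).nonneg (bp n).le_one)
    · have h1 : 4 ≤ ‖st δ e t‖ := by
        by_contra h
        exact ht (cyl_of_st hδ he (by norm_num) (not_le.1 h).le)
      rw [(bp n).zero_of_le_dist (by rw [dist_zero_right]; exact h1)]
      simp
  · have h0 : gR δ e 0 y = 0 := by
      rw [gR]
      refine integral_eq_zero_of_ae (Eventually.of_forall fun t => ?_)
      simp only [Pi.zero_apply, mul_eq_zero]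
      by_contra h
      push Not at h
      refine hy (cyl_of_st hδ he (by norm_num) ?_)
      have h1 : ‖st δ e t‖ ≤ 4 := by
        by_contra h'
        exact h.1 ((bp n).zero_of_le_dist (by rw [dist_zero_right]; exact (not_le.1 h').le))
      have h2 : ‖st δ e (y - t - 0)‖ ≤ 4 := by
        by_contra h'
        exact h.2 ((bp n).zero_of_le_dist (by rw [dist_zero_right]; exact (not_le.1 h').le))
      have : y = (y - t - 0) + t := by abel
      rw [this, map_add]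
      refine (norm_add_le _ _).trans ?_
      linarith
    rw [h0]; simp

/-- **comparison**: the integral over any tube is bounded by an integral of a majorant over a
cylinder centred at the origin -/
theorem tube_le {f F : L2E n} (h : Maj f F) (hf : ∀ᵐ x : E n, ((‖f x‖ : ℝ) : ℂ) = f x)
    {δ : ℝ} (hδ : 0 < δ) (hδ1 : δ ≤ 1) {e : E n} (he : ‖e‖ = 1) (a : E n) :
    volume (cyl (1 / 2) δ e) * ∫⁻ y in tube δ e a, ‖f y‖ₑ ≤
      volume (cyl 4 (4 * δ) e) * ∫⁻ y in cyl 8 (8 * δ) e, ‖F y‖ₑ := by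
  have h1 := lintegral_le h hf (gS_pos hδ hδ1 he a) (gS_real hδ hδ1 he a)
  have hn : ∀ b y, ‖gS hδ hδ1 he b y‖ₑ = ENNReal.ofReal (gR δ e b y) := by
    intro b y
    rw [gS_apply, ← ofReal_norm, Complex.norm_real, Real.norm_of_nonneg (gR_nonneg _ _ _ _)]
  simp_rw [hn] at h1
  calc volume (cyl (1 / 2) δ e) * ∫⁻ y in tube δ e a, ‖f y‖ₑ
      ≤ ∫⁻ y in tube δ e a, volume (cyl (1 / 2) δ e) * ‖f y‖ₑ := lintegral_const_mul_le _ _
    _ ≤ ∫⁻ y in tube δ e a, ENNReal.ofReal (gR δ e a y) * ‖f y‖ₑ := by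
        refine setLIntegral_mono' (tube_closed _ _ _).measurableSet fun y hy => ?_
        exact mul_le_mul' (gR_ge hδ hδ1 he hy) le_rfl
    _ ≤ ∫⁻ y, ENNReal.ofReal (gR δ e a y) * ‖f y‖ₑ := setLIntegral_le_lintegral _ _
    _ ≤ ∫⁻ y, ENNReal.ofReal (gR δ e 0 y) * ‖F y‖ₑ := h1
    _ ≤ ∫⁻ y, (cyl 8 (8 * δ) e).indicator (fun z => volume (cyl 4 (4 * δ) e) * ‖F z‖ₑ) y := by
        refine lintegral_mono fun y => ?_
        refine (mul_le_mul' (gR_le hδ hδ1 he y) le_rfl).trans (le_of_eq ?_)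
        by_cases hy : y ∈ cyl 8 (8 * δ) e
        · rw [indicator_of_mem hy, indicator_of_mem hy]
        · rw [indicator_of_notMem hy, indicator_of_notMem hy, zero_mul]
    _ = ∫⁻ y in cyl 8 (8 * δ) e, volume (cyl 4 (4 * δ) e) * ‖F y‖ₑ :=
        lintegral_indicator (cyl_closed _ _ _).measurableSet _
    _ = _ := lintegral_const_mul'' _ (Lp.aestronglyMeasurable F).enorm.restrict

end Pool.Agent.W2helper16.KM
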