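import Pool.Agent.W2helper16.KM.B
import Pool.Agent.H742R2.Kk.Sphere

/-! Integrals over the cylinders around the origin. -/

set_option autoImplicit false

open MeasureTheory Set Filter Topology Metric
open scoped ENNReal NNReal RealInnerProductSpace

namespace Pool.Agent.W2helper16.KM

/-- surface measure -/
noncomputable def surf (n : ℕ) : Measure (sphere (0 : E n) 1) := (volume : Measure (E n)).toSphere

lemma cyl_vol_le {m : ℕ} {ℓ ρ : ℝ} (hℓ : 0 ≤ ℓ) (hρ : 0 ≤ ρ) {e : E (m + 1)} (he : ‖e‖ = 1) :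
    volume (cyl ℓ ρ e) ≤ ENNReal.ofReal (2 * ℓ * (2 * ρ) ^ m) := by
  have hon : Orthonormal ℝ (({0} : Set (Fin (m + 1))).domRestrict (fun _ => e)) := by
    rw [orthonormal_iff_ite]
    rintro ⟨i, hi⟩ ⟨j, hj⟩
    simp only [mem_singleton_iff] at hi hj
    subst hi; subst hj
    change (inner ℝ e e : ℝ) = _
    rw [real_inner_self_eq_norm_sq, he]
    simp
  obtain ⟨b, hb⟩ := hon.exists_orthonormalBasis_extension_of_card_eq (by simp)
  have hb0 : b 0 = e := hb 0 rfl
  set r : Fin (m + 1) → ℝ := Fin.cons ℓ (fun _ => ρ) with hr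
  set B : Set (Fin (m + 1) → ℝ) := Set.pi univ (fun i => Icc (-(r i)) (r i)) with hB
  have hBm : MeasurableSet B := MeasurableSet.univ_pi (fun i => measurableSet_Icc)
  have hvolB : volume B = ENNReal.ofReal (2 * ℓ * (2 * ρ) ^ m) := by
    rw [hB, volume_pi_pi]
    simp only [Real.volume_Icc]
    rw [Fin.prod_univ_succ]
    simp only [hr, Fin.cons_zero, Fin.cons_succ, Finset.prod_const, Finset.card_univ,
      Fintype.card_fin]
    have hnn : 0 ≤ ρ - -ρ := by linarith
    rw [← ENNReal.ofReal_pow hnn, ← ENNReal.ofReal_mul (by linarith)]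
    congr 1
    ring
  have hmp : MeasurePreserving (fun y : EuclideanSpace ℝ (Fin (m + 1)) =>
      (b.repr y).ofLp) volume volume := by
    have h2 := b.measurePreserving_repr
    have h3 := PiLp.volume_preserving_ofLp (Fin (m + 1))
    exact h3.comp h2
  rw [← hvolB, ← hmp.measure_preimage hBm.nullMeasurableSet]
  apply measure_mono
  rintro v ⟨h1, h2⟩
  simp only [mem_preimage, hB, mem_univ_pi, mem_Icc]
  have hv0 : (inner ℝ v e : ℝ) = b.repr v 0 := by
    rw [b.repr_apply_apply, hb0, real_inner_comm]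
  intro i
  rw [← abs_le]
  refine Fin.cases ?_ (fun j => ?_) i
  · rw [← hv0]; simpa [hr] using h1
  · have h3 : b.repr v j.succ = inner ℝ (b j.succ) (v - (inner ℝ v e : ℝ) • e) := by
      rw [inner_sub_right, inner_smul_right, ← hb0, b.inner_eq_zero (Fin.succ_ne_zero j), mul_zero,
        sub_zero, b.repr_apply_apply]
    rw [h3]
    refine (abs_real_inner_le_norm _ _).trans ?_
    rw [b.norm_eq_one, one_mul]
    simpa [hr] using h2

/-- for unit vectors the two distances to the lines agree -/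
lemma perp_symm {n : ℕ} {e u : E n} (he : ‖e‖ = 1) (hu : ‖u‖ = 1) :
    ‖e - (⟪e, u⟫ : ℝ) • u‖ = ‖u - (⟪u, e⟫ : ℝ) • e‖ := by
  have h1 := norm_sq_split hu e
  have h2 := norm_sq_split he u
  rw [he] at h1
  rw [hu] at h2
  have h3 : (⟪e, u⟫ : ℝ) = ⟪u, e⟫ := real_inner_comm _ _
  rw [← abs_of_nonneg (norm_nonneg (e - (⟪e, u⟫ : ℝ) • u)),
    ← abs_of_nonneg (norm_nonneg (u - (⟪u, e⟫ : ℝ) • e)), ← sq_eq_sq_iff_abs_eq_abs]
  rw [h3] at h1 ⊢
  linarith

/-- the directions of the cylinders which contain a point -/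
lemma dir_le {m : ℕ} {y : E (m + 1)} (hy : y ≠ 0) {ℓ ρ : ℝ} (hρ : 0 ≤ ρ) :
    surf (m + 1) {e | y ∈ cyl ℓ ρ (e : E (m + 1))} ≤
      ENNReal.ofReal ((m + 1) * 2 * (2 * (ρ / ‖y‖)) ^ m) := by
  have hy0 : 0 < ‖y‖ := norm_pos_iff.2 hy
  set u : E (m + 1) := ‖y‖⁻¹ • y with hu
  have hu1 : ‖u‖ = 1 := by rw [hu, norm_smul, norm_inv, norm_norm, inv_mul_cancel₀ hy0.ne']
  have hyu : y = ‖y‖ • u := by rw [hu, smul_smul, mul_inv_cancel₀ hy0.ne', one_smul]
  set A : Set (E (m + 1)) := {x | ‖y - (⟪y, x⟫ : ℝ) • x‖ ≤ ρ} with hA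
  have hAc : IsClosed A := by
    have h2 : Continuous fun x : E (m + 1) => ‖y - (⟪y, x⟫ : ℝ) • x‖ := by fun_prop
    exact isClosed_le h2 continuous_const
  have h1 := Pool.Agent.H742R2.Kk.sphere_le_ball m (G := A.indicator 1)
    (measurable_one.indicator hAc.measurableSet)
  have hc : 0 ≤ ρ / ‖y‖ := by positivity
  calc surf (m + 1) {e | y ∈ cyl ℓ ρ (e : E (m + 1))}
      ≤ surf (m + 1) ((fun e : sphere (0 : E (m + 1)) 1 => (e : E (m + 1))) ⁻¹' A) :=
        measure_mono fun e he => he.2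
    _ = ∫⁻ e, A.indicator 1 (e : E (m + 1)) ∂(surf (m + 1)) := by
        rw [← lintegral_indicator_one (measurable_subtype_coe hAc.measurableSet)]
        rfl
    _ ≤ (m + 1) * ∫⁻ x in closedBall (0 : E (m + 1)) 1, A.indicator 1 (‖x‖⁻¹ • x) := h1
    _ ≤ (m + 1) * volume (cyl 1 (ρ / ‖y‖) u) := by
        refine mul_le_mul' le_rfl ?_
        rw [← lintegral_indicator_one (cyl_closed _ _ _).measurableSet,
          ← lintegral_indicator measurableSet_closedBall]
        refine lintegral_mono fun x => ?_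
        by_cases hx : x ∈ closedBall (0 : E (m + 1)) 1
        · rw [indicator_of_mem hx]
          rw [mem_closedBall, dist_zero_right] at hx
          by_cases hx2 : ‖x‖⁻¹ • x ∈ A
          · rw [indicator_of_mem hx2, indicator_of_mem, Pi.one_apply, Pi.one_apply]
            constructor
            · refine (abs_real_inner_le_norm _ _).trans ?_
              rw [hu1, mul_one]; exact hx
            · by_cases hx0 : x = 0
              · rw [hx0]; simpa using hc
              have hxn : 0 < ‖x‖ := norm_pos_iff.2 hx0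
              set e : E (m + 1) := ‖x‖⁻¹ • x with he
              have he1 : ‖e‖ = 1 := by
                rw [he, norm_smul, norm_inv, norm_norm, inv_mul_cancel₀ hxn.ne']
              have hxe : x = ‖x‖ • e := by
                rw [he, smul_smul, mul_inv_cancel₀ hxn.ne', one_smul]
              have e1 : x - (⟪x, u⟫ : ℝ) • u = ‖x‖ • (e - (⟪e, u⟫ : ℝ) • u) := by
                nth_rewrite 1 [hxe]
                nth_rewrite 2 [hxe]
                rw [inner_smul_left, smul_sub]; simp [mul_smul]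
              have e2 : y - (⟪y, e⟫ : ℝ) • e = ‖y‖ • (u - (⟪u, e⟫ : ℝ) • e) := by
                nth_rewrite 1 [hyu]
                nth_rewrite 2 [hyu]
                rw [inner_smul_left, smul_sub]; simp [mul_smul]
              have h3 : ‖y‖ * ‖u - (⟪u, e⟫ : ℝ) • e‖ ≤ ρ := by
                have : ‖y - (⟪y, e⟫ : ℝ) • e‖ ≤ ρ := hx2
                rwa [e2, norm_smul, norm_norm] at this
              rw [e1, norm_smul, norm_norm, perp_symm he1 hu1, le_div_iff₀ hy0]
              have h4 := norm_nonneg (u - (⟪u, e⟫ : ℝ) • e)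
              nlinarith [mul_nonneg hy0.le h4]
          · rw [indicator_of_notMem hx2]; exact bot_le
        · rw [indicator_of_notMem hx]; exact bot_le
    _ ≤ (m + 1) * ENNReal.ofReal (2 * 1 * (2 * (ρ / ‖y‖)) ^ m) :=
        mul_le_mul' le_rfl (cyl_vol_le zero_le_one hc hu1)
    _ = _ := by
        have : ((m : ℝ≥0∞) + 1) = ENNReal.ofReal (m + 1) := by
          rw [ENNReal.ofReal_add (by positivity) (by positivity)]; simp
        rw [this, ← ENNReal.ofReal_mul (by positivity)]
        congr 1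
        ring

lemma surf_univ {m : ℕ} : surf (m + 1) univ ≤ ENNReal.ofReal ((m + 1) * 2 * 2 ^ m) := by
  set u : E (m + 1) := EuclideanSpace.single 0 1 with hu
  have hu1 : ‖u‖ = 1 := by simp [hu]
  have h1 := Pool.Agent.H742R2.Kk.sphere_le_ball m (G := 1) measurable_one
  simp only [Pi.one_apply, lintegral_one, Measure.restrict_apply_univ] at h1
  refine h1.trans ?_
  have h2 : volume (closedBall (0 : E (m + 1)) 1) ≤ volume (cyl 1 1 u) := by
    refine measure_mono fun x hx => ?_
    rw [mem_closedBall, dist_zero_right] at hx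
    have h3 := norm_sq_split hu1 x
    have h4 : ‖x‖ ^ 2 ≤ 1 := by nlinarith [norm_nonneg x]
    constructor
    · exact abs_le_of_sq_le_sq (by nlinarith [sq_nonneg ‖x - (⟪x, u⟫ : ℝ) • u‖]) zero_le_one
    · exact abs_le_of_sq_le_sq' (by nlinarith [sq_nonneg (⟪x, u⟫ : ℝ)]) zero_le_one |>.2
  refine (mul_le_mul' le_rfl (h2.trans (cyl_vol_le zero_le_one zero_le_one hu1))).trans ?_
  have : ((m : ℝ≥0∞) + 1) = ENNReal.ofReal (m + 1) := by
    rw [ENNReal.ofReal_add (by positivity) (by positivity)]; simp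
  rw [this, ← ENNReal.ofReal_mul (by positivity)]
  refine ENNReal.ofReal_le_ofReal (le_of_eq ?_)
  ring

end Pool.Agent.W2helper16.KM
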