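import Pool.Agent.W2helper16.KM.C

/-! The maximal function of tubes around the origin. -/

set_option autoImplicit false

open MeasureTheory Set Filter Topology Metric
open scoped ENNReal NNReal RealInnerProductSpace

namespace Pool.Agent.W2helper16.KM

/-- Jensen -/
lemma jensen {α : Type*} [MeasurableSpace α] (μ : Measure α) {F : α → ℝ≥0∞} (hF : AEMeasurable F μ)
    {p : ℝ} (hp : 1 ≤ p) :
    (∫⁻ x, F x ∂μ) ^ p ≤ μ univ ^ (p - 1) * ∫⁻ x, F x ^ p ∂μ := by
  rcases eq_or_lt_of_le hp with rfl | hp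
  · simp
  · have hpq : p.HolderConjugate (p / (p - 1)) := .conjExponent hp
    have h := ENNReal.lintegral_mul_le_Lp_mul_Lq μ hpq hF (g := fun _ => 1) aemeasurable_const
    simp only [Pi.mul_apply, mul_one, ENNReal.one_rpow, lintegral_one] at h
    have hp0 : p ≠ 0 := by linarith
    have hp1 : p - 1 ≠ 0 := by linarith
    calc (∫⁻ x, F x ∂μ) ^ p ≤ ((∫⁻ x, F x ^ p ∂μ) ^ (1 / p) * (μ univ) ^ (1 / (p / (p - 1)))) ^ p :=
          ENNReal.rpow_le_rpow h (by linarith)
      _ = μ univ ^ (p - 1) * ∫⁻ x, F x ^ p ∂μ := by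
          rw [ENNReal.mul_rpow_of_nonneg _ _ (by linarith), ← ENNReal.rpow_mul, ← ENNReal.rpow_mul,
            mul_comm]
          congr 1
          · congr 1; field_simp
          · rw [one_div_mul_cancel hp0, ENNReal.rpow_one]

/-- dyadic shells -/
def sh (m : ℕ) (δ : ℝ) (j : ℕ) : Set (E (m + 1)) :=
  {y | (j = 0 ∨ 2 ^ j * δ ≤ ‖y‖) ∧ ‖y‖ < 2 ^ (j + 1) * δ}

lemma sh_meas (m : ℕ) (δ : ℝ) (j : ℕ) : MeasurableSet (sh m δ j) := by
  have h1 : MeasurableSet {y : E (m + 1) | 2 ^ j * δ ≤ ‖y‖} :=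
    measurableSet_le measurable_const measurable_norm
  have h2 : MeasurableSet {y : E (m + 1) | ‖y‖ < 2 ^ (j + 1) * δ} :=
    measurableSet_lt measurable_norm measurable_const
  by_cases hj : j = 0
  · have : sh m δ j = {y : E (m + 1) | ‖y‖ < 2 ^ (j + 1) * δ} := by
      ext y; simp [sh, hj]
    rw [this]; exact h2
  · have : sh m δ j = {y : E (m + 1) | 2 ^ j * δ ≤ ‖y‖} ∩ {y | ‖y‖ < 2 ^ (j + 1) * δ} := by
      ext y; simp [sh, hj]
    rw [this]; exact h1.inter h2

lemma sh_cover {m : ℕ} {δ : ℝ} (hδ : 0 < δ) {J : ℕ} {y : E (m + 1)} (hy : ‖y‖ < 2 ^ J * δ) :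
    ∃ j ∈ Finset.range (J + 1), y ∈ sh m δ j := by
  classical
  have hex : ∃ j, ‖y‖ < 2 ^ (j + 1) * δ := ⟨J, hy.trans (by
    rw [pow_succ]; nlinarith [pow_pos (zero_lt_two' ℝ) J, mul_pos (pow_pos (zero_lt_two' ℝ) J) hδ])⟩
  refine ⟨Nat.find hex, ?_, ?_, Nat.find_spec hex⟩
  · rw [Finset.mem_range]
    by_cases hJ : J = 0
    · subst hJ
      have : Nat.find hex = 0 := by
        rw [Nat.find_eq_zero]
        simp at hy ⊢
        linarith
      omega
    · have : Nat.find hex ≤ J - 1 := Nat.find_min' hex (by rwa [Nat.sub_add_cancel (by omega)])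
      omega
  · by_cases h0 : Nat.find hex = 0
    · exact Or.inl h0
    · right
      have := Nat.find_min hex (m := Nat.find hex - 1) (by omega)
      rw [Nat.sub_add_cancel (by omega), not_lt] at this
      exact this

/-- the graph of the cylinders -/
lemma graph_closed (m : ℕ) (ℓ ρ : ℝ) :
    IsClosed {z : sphere (0 : E (m + 1)) 1 × E (m + 1) | z.2 ∈ cyl ℓ ρ (z.1 : E (m + 1))} := by
  have h1 : Continuous fun z : sphere (0 : E (m + 1)) 1 × E (m + 1) =>
      |(⟪z.2, (z.1 : E (m + 1))⟫ : ℝ)| := by fun_prop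
  have h2 : Continuous fun z : sphere (0 : E (m + 1)) 1 × E (m + 1) =>
      ‖z.2 - (⟪z.2, (z.1 : E (m + 1))⟫ : ℝ) • (z.1 : E (m + 1))‖ := by fun_prop
  exact (isClosed_le h1 continuous_const).inter (isClosed_le h2 continuous_const)

/-- one shell -/
lemma shell_le {m : ℕ} {δ : ℝ} (hδ : 0 < δ) {F : E (m + 1) → ℝ≥0∞} (hF : Measurable F)
    {p : ℝ} (hp : 1 ≤ p) (hpm : p ≤ m + 1) (j : ℕ) :
    ∫⁻ e, (∫⁻ y in cyl 8 (8 * δ) (e : E (m + 1)) ∩ sh m δ j, F y) ^ p ∂(surf (m + 1)) ≤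
      ENNReal.ofReal ((4 * 16 ^ m) ^ m * ((m + 1) * 2 * 16 ^ m) * δ ^ ((m + 1) * (p - 1))) *
        ∫⁻ y in sh m δ j, F y ^ p := by
  set A : Set (sphere (0 : E (m + 1)) 1 × E (m + 1)) :=
    {z | z.2 ∈ cyl 8 (8 * δ) (z.1 : E (m + 1))} with hA
  have hAm : MeasurableSet A := (graph_closed m 8 (8 * δ)).measurableSet
  have hcm : ∀ e : sphere (0 : E (m + 1)) 1, MeasurableSet (cyl 8 (8 * δ) (e : E (m + 1))) :=
    fun e => (cyl_closed _ _ _).measurableSet
  set V : ℝ≥0∞ := ENNReal.ofReal (2 * (2 ^ (j + 1) * δ) * (2 * (8 * δ)) ^ m) with hV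
  have hvol : ∀ e : sphere (0 : E (m + 1)) 1,
      volume (cyl 8 (8 * δ) (e : E (m + 1)) ∩ sh m δ j) ≤ V := by
    intro e
    have he : ‖(e : E (m + 1))‖ = 1 := by simp
    refine (measure_mono ?_).trans (cyl_vol_le (ℓ := 2 ^ (j + 1) * δ) (ρ := 8 * δ) (by positivity)
      (by positivity) he)
    rintro y ⟨h1, h2⟩
    refine ⟨?_, h1.2⟩
    refine (abs_real_inner_le_norm _ _).trans ?_
    rw [he, mul_one]
    exact h2.2.le
  have hdir : ∀ y ∈ sh m δ j, surf (m + 1) {e | y ∈ cyl 8 (8 * δ) (e : E (m + 1))} ≤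
      ENNReal.ofReal ((m + 1) * 2 * (16 * (2 ^ j)⁻¹) ^ m) := by
    intro y hy
    by_cases hj : j = 0
    · refine (measure_mono (subset_univ _)).trans (surf_univ.trans (ENNReal.ofReal_le_ofReal ?_))
      rw [hj]
      have : (2 : ℝ) ^ m ≤ 16 ^ m := pow_le_pow_left₀ (by norm_num) (by norm_num) m
      simp only [pow_zero, inv_one, mul_one]
      gcongr
    · have h1 : 2 ^ j * δ ≤ ‖y‖ := hy.1.resolve_left hj
      have h2 : 0 < 2 ^ j * δ := by positivity
      have hy0 : 0 < ‖y‖ := h2.trans_le h1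
      refine (dir_le (norm_pos_iff.1 hy0) (by positivity)).trans (ENNReal.ofReal_le_ofReal ?_)
      have h3 : 2 * (8 * δ / ‖y‖) ≤ 16 * (2 ^ j)⁻¹ := by
        rw [div_eq_mul_inv]
        calc 2 * (8 * δ * ‖y‖⁻¹) ≤ 2 * (8 * δ * (2 ^ j * δ)⁻¹) := by gcongr
          _ = 16 * (2 ^ j)⁻¹ := by
              rw [mul_inv]; field_simp; norm_num
      gcongr
  have hm1 : Measurable fun z : sphere (0 : E (m + 1)) 1 × E (m + 1) =>
      A.indicator (fun w => F w.2 ^ p) z :=
    ((hF.comp measurable_snd).pow_const p).indicator hAm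
  calc ∫⁻ e, (∫⁻ y in cyl 8 (8 * δ) (e : E (m + 1)) ∩ sh m δ j, F y) ^ p ∂(surf (m + 1))
      ≤ ∫⁻ e, V ^ (p - 1) * (∫⁻ y in sh m δ j, A.indicator (fun w => F w.2 ^ p) (e, y))
          ∂(surf (m + 1)) := by
        refine lintegral_mono fun e => ?_
        refine (jensen _ hF.aemeasurable hp).trans ?_
        rw [Measure.restrict_apply_univ]
        refine mul_le_mul' (ENNReal.rpow_le_rpow (hvol e) (by linarith)) (le_of_eq ?_)
        rw [← lintegral_indicator (sh_meas m δ j), ← lintegral_indicator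
          ((hcm e).inter (sh_meas m δ j))]
        refine lintegral_congr fun y => ?_
        by_cases h1 : y ∈ sh m δ j
        · by_cases h2 : y ∈ cyl 8 (8 * δ) (e : E (m + 1))
          · rw [indicator_of_mem (show y ∈ cyl 8 (8 * δ) (e : E (m + 1)) ∩ sh m δ j from ⟨h2, h1⟩),
              indicator_of_mem h1, indicator_of_mem (by exact h2)]
          · rw [indicator_of_notMem (fun h => h2 h.1), indicator_of_mem h1,
              indicator_of_notMem (by exact h2)]
        · rw [indicator_of_notMem (fun h => h1 h.2), indicator_of_notMem h1]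
    _ = V ^ (p - 1) * ∫⁻ y in sh m δ j, (∫⁻ e, A.indicator (fun w => F w.2 ^ p) (e, y)
          ∂(surf (m + 1))) := by
        rw [lintegral_const_mul _ (Measurable.lintegral_prod_right' hm1)]
        congr 1
        have : SFinite (surf (m + 1)) := by unfold surf; infer_instance
        exact lintegral_lintegral_swap hm1.aemeasurable
    _ ≤ V ^ (p - 1) * ∫⁻ y in sh m δ j,
          ENNReal.ofReal ((m + 1) * 2 * (16 * (2 ^ j)⁻¹) ^ m) * F y ^ p := by
        refine mul_le_mul' le_rfl (setLIntegral_mono' (sh_meas m δ j) fun y hy => ?_)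
        have hmy : MeasurableSet {e : sphere (0 : E (m + 1)) 1 |
            y ∈ cyl 8 (8 * δ) (e : E (m + 1))} :=
          (measurable_id.prodMk measurable_const) hAm
        calc ∫⁻ e, A.indicator (fun w => F w.2 ^ p) (e, y) ∂(surf (m + 1))
            = ∫⁻ e, ({e : sphere (0 : E (m + 1)) 1 |
              y ∈ cyl 8 (8 * δ) (e : E (m + 1))}).indicator (fun _ => F y ^ p) e
                ∂(surf (m + 1)) := rfl
          _ = F y ^ p * surf (m + 1) {e | y ∈ cyl 8 (8 * δ) (e : E (m + 1))} := by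
              rw [lintegral_indicator_const hmy]
          _ ≤ _ := by
              rw [mul_comm]
              exact mul_le_mul' (hdir y hy) le_rfl
    _ = (V ^ (p - 1) * ENNReal.ofReal ((m + 1) * 2 * (16 * (2 ^ j)⁻¹) ^ m)) *
          ∫⁻ y in sh m δ j, F y ^ p := by
        rw [lintegral_const_mul _ (hF.pow_const p), ← mul_assoc]
    _ ≤ _ := by
        refine mul_le_mul' ?_ le_rfl
        rw [hV, ENNReal.ofReal_rpow_of_nonneg (by positivity) (by linarith),
          ← ENNReal.ofReal_mul (by positivity)]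
        refine ENNReal.ofReal_le_ofReal ?_
        have h1 : 2 * (2 ^ (j + 1) * δ) * (2 * (8 * δ)) ^ m = 2 ^ j * ((4 * 16 ^ m) * δ ^ (m + 1)) := by
          rw [pow_succ, pow_succ, show 2 * (8 * δ) = 16 * δ by ring, mul_pow]; ring
        rw [h1, Real.mul_rpow (by positivity) (by positivity),
          Real.mul_rpow (by positivity) (by positivity), mul_pow, inv_pow]
        have h2 : (δ ^ (m + 1)) ^ (p - 1) = δ ^ ((m + 1) * (p - 1)) := by
          rw [← Real.rpow_natCast, ← Real.rpow_mul hδ.le]; push_cast; rfl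
        have h3 : ((4 : ℝ) * 16 ^ m) ^ (p - 1) ≤ (4 * 16 ^ m) ^ m := by
          have : (1 : ℝ) ≤ 16 ^ m := one_le_pow₀ (by norm_num)
          calc ((4 : ℝ) * 16 ^ m) ^ (p - 1) ≤ (4 * 16 ^ m) ^ (m : ℝ) :=
                Real.rpow_le_rpow_of_exponent_le (by linarith) (by linarith)
            _ = _ := Real.rpow_natCast _ _
        have h4 : ((2 : ℝ) ^ j) ^ (p - 1) * ((2 ^ j) ^ m)⁻¹ ≤ 1 := by
          rw [← Real.rpow_natCast (2 ^ j) m, ← div_eq_mul_inv, div_le_one (by positivity)]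
          refine Real.rpow_le_rpow_of_exponent_le (one_le_pow₀ (by norm_num)) (by linarith)
        rw [h2]
        have h5 : 0 ≤ δ ^ ((m + 1) * (p - 1)) := by positivity
        calc ((2 : ℝ) ^ j) ^ (p - 1) * ((4 * 16 ^ m) ^ (p - 1) * δ ^ ((m + 1) * (p - 1))) *
              ((m + 1) * 2 * (16 ^ m * ((2 ^ j) ^ m)⁻¹))
            = (((2 : ℝ) ^ j) ^ (p - 1) * ((2 ^ j) ^ m)⁻¹) * ((4 * 16 ^ m) ^ (p - 1) *
              ((m + 1) * 2 * 16 ^ m) * δ ^ ((m + 1) * (p - 1))) := by ring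
          _ ≤ 1 * ((4 * 16 ^ m) ^ m * ((m + 1) * 2 * 16 ^ m) * δ ^ ((m + 1) * (p - 1))) := by
              gcongr
          _ = _ := one_mul _

lemma piece_meas {m : ℕ} {F : E (m + 1) → ℝ≥0∞} (hF : Measurable F) (ℓ ρ : ℝ)
    {S : Set (E (m + 1))} (hS : MeasurableSet S) :
    Measurable fun e : sphere (0 : E (m + 1)) 1 => ∫⁻ y in cyl ℓ ρ (e : E (m + 1)) ∩ S, F y := by
  set A : Set (sphere (0 : E (m + 1)) 1 × E (m + 1)) :=
    {z | z.2 ∈ cyl ℓ ρ (z.1 : E (m + 1))} with hA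
  have hAm : MeasurableSet A := (graph_closed m ℓ ρ).measurableSet
  have hm1 : Measurable fun z : sphere (0 : E (m + 1)) 1 × E (m + 1) =>
      (A ∩ Prod.snd ⁻¹' S).indicator (fun w => F w.2) z :=
    (hF.comp measurable_snd).indicator (hAm.inter (measurable_snd hS))
  have h2 := Measurable.lintegral_prod_right' (ν := (volume : Measure (E (m + 1)))) hm1
  have h3 : (fun e : sphere (0 : E (m + 1)) 1 => ∫⁻ y in cyl ℓ ρ (e : E (m + 1)) ∩ S, F y) =
      fun e => ∫⁻ y, (A ∩ Prod.snd ⁻¹' S).indicator (fun w => F w.2) (e, y) := by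
    funext e
    rw [← lintegral_indicator ((cyl_closed _ _ _).measurableSet.inter hS)]
    rfl
  rw [h3]
  exact h2

lemma sh_disj {m : ℕ} {δ : ℝ} (hδ : 0 < δ) : Pairwise (Function.onFun Disjoint (sh m δ)) := by
  have key : ∀ j k : ℕ, j < k → Disjoint (sh m δ j) (sh m δ k) := by
    intro j k hjk
    rw [Set.disjoint_left]
    rintro y h1 h2
    have h3 := h2.1.resolve_left (by omega)
    have h4 := h1.2
    have h5 : (2 : ℝ) ^ (j + 1) ≤ 2 ^ k := pow_le_pow_right₀ (by norm_num) hjk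
    nlinarith
  intro j k hjk
  rcases lt_or_gt_of_ne hjk with h | h
  · exact key j k h
  · exact (key k j h).symm

/-- the tubes through the origin -/
theorem origin_le {m : ℕ} {δ : ℝ} (hδ : 0 < δ) (hδ1 : δ < 1) {F : E (m + 1) → ℝ≥0∞}
    (hF : Measurable F) {p : ℝ} (hp : 1 ≤ p) (hpm : p ≤ m + 1) {J : ℕ} (hJ : 16 < 2 ^ J * δ) :
    ∫⁻ e, (∫⁻ y in cyl 8 (8 * δ) (e : E (m + 1)), F y) ^ p ∂(surf (m + 1)) ≤
      ENNReal.ofReal (((J : ℝ) + 1) ^ (p - 1) *
        ((4 * 16 ^ m) ^ m * ((m + 1) * 2 * 16 ^ m) * δ ^ ((m + 1) * (p - 1)))) *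
        ∫⁻ y, F y ^ p := by
  calc ∫⁻ e, (∫⁻ y in cyl 8 (8 * δ) (e : E (m + 1)), F y) ^ p ∂(surf (m + 1))
      ≤ ∫⁻ e, ((J : ℝ≥0∞) + 1) ^ (p - 1) * ∑ j ∈ Finset.range (J + 1),
          (∫⁻ y in cyl 8 (8 * δ) (e : E (m + 1)) ∩ sh m δ j, F y) ^ p ∂(surf (m + 1)) := by
        refine lintegral_mono fun e => ?_
        have he : ‖(e : E (m + 1))‖ = 1 := by simp
        have h1 : ∫⁻ y in cyl 8 (8 * δ) (e : E (m + 1)), F y ≤ ∑ j ∈ Finset.range (J + 1),
            ∫⁻ y in cyl 8 (8 * δ) (e : E (m + 1)) ∩ sh m δ j, F y := by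
          have hd : (Finset.range (J + 1) : Set ℕ).PairwiseDisjoint
              (fun j => cyl 8 (8 * δ) (e : E (m + 1)) ∩ sh m δ j) := by
            intro j _ k _ hjk
            exact (sh_disj hδ hjk).mono inter_subset_right inter_subset_right
          rw [← lintegral_biUnion_finset hd fun j _ =>
            (cyl_closed _ _ _).measurableSet.inter (sh_meas m δ j)]
          refine lintegral_mono_set fun y hy => ?_
          have h3 : ‖y‖ < 2 ^ J * δ := by
            refine lt_of_le_of_lt ?_ hJ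
            refine abs_le_of_sq_le_sq' ?_ (by norm_num) |>.2
            rw [norm_sq_split he y]
            have h4 : (⟪y, (e : E (m + 1))⟫ : ℝ) ^ 2 ≤ 8 ^ 2 := sq_le_sq.2 (by
              rw [abs_of_pos (by norm_num : (0 : ℝ) < 8)]; exact hy.1)
            have h5 : ‖y - (⟪y, (e : E (m + 1))⟫ : ℝ) • (e : E (m + 1))‖ ^ 2 ≤ 8 ^ 2 :=
              pow_le_pow_left₀ (norm_nonneg _) (hy.2.trans (by linarith)) 2
            linarith
          obtain ⟨j, hj, hyj⟩ := sh_cover hδ h3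
          exact mem_biUnion (by simpa using hj) ⟨hy, hyj⟩
        refine (ENNReal.rpow_le_rpow h1 (by linarith)).trans ?_
        refine (ENNReal.rpow_sum_le_const_mul_sum_rpow _ _ hp).trans (le_of_eq ?_)
        rw [Finset.card_range]
        push_cast
        rfl
    _ = ((J : ℝ≥0∞) + 1) ^ (p - 1) * ∑ j ∈ Finset.range (J + 1),
          ∫⁻ e, (∫⁻ y in cyl 8 (8 * δ) (e : E (m + 1)) ∩ sh m δ j, F y) ^ p ∂(surf (m + 1)) := by
        rw [lintegral_const_mul _ (Finset.measurable_fun_sum _ fun j _ =>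
          (piece_meas hF _ _ (sh_meas m δ j)).pow_const p),
          lintegral_finsetSum _ fun j _ => (piece_meas hF _ _ (sh_meas m δ j)).pow_const p]
    _ ≤ ((J : ℝ≥0∞) + 1) ^ (p - 1) * ∑ j ∈ Finset.range (J + 1),
          ENNReal.ofReal ((4 * 16 ^ m) ^ m * ((m + 1) * 2 * 16 ^ m) * δ ^ ((m + 1) * (p - 1))) *
            ∫⁻ y in sh m δ j, F y ^ p :=
        mul_le_mul' le_rfl (Finset.sum_le_sum fun j _ => shell_le hδ hF hp hpm j)
    _ ≤ ((J : ℝ≥0∞) + 1) ^ (p - 1) *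
          (ENNReal.ofReal ((4 * 16 ^ m) ^ m * ((m + 1) * 2 * 16 ^ m) * δ ^ ((m + 1) * (p - 1))) *
            ∫⁻ y, F y ^ p) := by
        rw [← Finset.mul_sum]
        refine mul_le_mul' le_rfl (mul_le_mul' le_rfl ?_)
        rw [← lintegral_biUnion_finset (fun j _ k _ hjk => sh_disj hδ hjk)
          fun j _ => sh_meas m δ j]
        exact setLIntegral_le_lintegral _ _
    _ = _ := by
        have h1 : ((J : ℝ≥0∞) + 1) ^ (p - 1) = ENNReal.ofReal (((J : ℝ) + 1) ^ (p - 1)) := by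
          rw [← ENNReal.ofReal_rpow_of_nonneg (by positivity) (by linarith)]
          congr 1
          rw [ENNReal.ofReal_add (by positivity) (by norm_num)]
          simp
        rw [h1, ← mul_assoc, ← ENNReal.ofReal_mul (by positivity)]

lemma exists_J {δ : ℝ} (hδ : 0 < δ) (hδ1 : δ < 1) : ∃ J : ℕ, 16 < 2 ^ J * δ ∧
    (J : ℝ) + 1 ≤ 6 * (1 + Real.log (1 / δ)) := by
  refine ⟨⌊Real.logb 2 (16 / δ)⌋₊ + 1, ?_, ?_⟩
  · have h1 := Nat.lt_floor_add_one (Real.logb 2 (16 / δ))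
    rw [Real.logb_lt_iff_lt_rpow (by norm_num) (by positivity), div_lt_iff₀ hδ] at h1
    have h2 : (2 : ℝ) ^ ((⌊Real.logb 2 (16 / δ)⌋₊ : ℝ) + 1) =
        2 ^ (⌊Real.logb 2 (16 / δ)⌋₊ + 1) := by
      rw [← Real.rpow_natCast]; push_cast; rfl
    rwa [h2] at h1
  · have hL : 0 ≤ Real.log (1 / δ) := Real.log_nonneg (by
      rw [le_div_iff₀ hδ]; linarith)
    have h1 : Real.logb 2 (16 / δ) = 4 + Real.log (1 / δ) / Real.log 2 := by
      rw [div_eq_mul_one_div, Real.logb_mul (by norm_num) (by positivity)]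
      congr 1
      have : (16 : ℝ) = 2 ^ (4 : ℝ) := by norm_num
      rw [this, Real.logb_rpow (by norm_num) (by norm_num)]
    have h2 : Real.log (1 / δ) / Real.log 2 ≤ 2 * Real.log (1 / δ) := by
      rw [div_le_iff₀ (Real.log_pos (by norm_num))]
      nlinarith [Real.log_two_gt_d9]
    have h3 : (⌊Real.logb 2 (16 / δ)⌋₊ : ℝ) ≤ Real.logb 2 (16 / δ) :=
      Nat.floor_le (by rw [h1]; have := Real.log_pos (by norm_num : (1 : ℝ) < 2); positivity)
    push_cast
    linarith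

end Pool.Agent.W2helper16.KM
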