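import Pool.Agent.W2helper16.KM.D

/-! The Kakeya maximal function of functions with local Fourier majorants. -/

set_option autoImplicit false

open MeasureTheory Set Filter Topology Metric
open scoped ENNReal NNReal RealInnerProductSpace

namespace Pool.Agent.W2helper16.KM

/-- The Kakeya maximal function. -/
noncomputable def kakeyaMax {n : ℕ} (δ : ℝ) (h : E n → ℝ) (e : E n) : ℝ≥0∞ :=
  ⨆ a : E n, (volume (tube δ e a))⁻¹ * ∫⁻ y in tube δ e a, ‖h y‖ₑ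

lemma tube_sub {n : ℕ} {δ : ℝ} (hδ : 0 < δ) (hδ1 : δ < 1) {e : E n} (he : ‖e‖ = 1) (a : E n) :
    tube δ e a ⊆ closedBall a 2 := by
  intro y hy
  rw [mem_closedBall, dist_eq_norm]
  refine abs_le_of_sq_le_sq' ?_ (by norm_num) |>.2
  rw [norm_sq_split he]
  have h4 : (⟪y - a, e⟫ : ℝ) ^ 2 ≤ (1 / 2) ^ 2 := sq_le_sq.2 (by
    rw [abs_of_pos (by norm_num : (0 : ℝ) < 1 / 2)]; exact hy.1)
  have h5 : ‖(y - a) - (⟪y - a, e⟫ : ℝ) • e‖ ^ 2 ≤ 1 ^ 2 :=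
    pow_le_pow_left₀ (norm_nonneg _) (hy.2.trans hδ1.le) 2
  linarith

lemma tube_vol (m : ℕ) : ∃ c : ℝ, 0 < c ∧ ∀ (δ : ℝ) (e : E (m + 1)), 0 < δ → ‖e‖ = 1 →
    ENNReal.ofReal (c * δ ^ m) ≤ volume (cyl (1 / 2) δ e) ∧
    ∀ a, ENNReal.ofReal (c * δ ^ m) ≤ volume (tube δ e a) := by
  obtain ⟨c, hc, h⟩ := Pool.Agent.H742R2.Kk.volume_tube m
  refine ⟨c, hc, fun δ e hδ he => ⟨?_, fun a => h δ e a hδ he⟩⟩
  have h1 := h δ e 0 hδ he
  simp only [sub_zero] at h1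
  exact h1

/-- averages over one tube -/
lemma avg_le (m : ℕ) : ∃ b : ℝ, 0 < b ∧ ∀ (f F : L2E (m + 1)), Maj f F →
    (∀ᵐ x : E (m + 1), ((‖f x‖ : ℝ) : ℂ) = f x) → ∀ (δ : ℝ) (e a : E (m + 1)), 0 < δ → δ < 1 →
    ‖e‖ = 1 → (volume (tube δ e a))⁻¹ * ∫⁻ y in tube δ e a, ‖f y‖ₑ ≤
      ENNReal.ofReal (b * (δ ^ m)⁻¹) * ∫⁻ y in cyl 8 (8 * δ) e, ‖F y‖ₑ := by
  obtain ⟨c, hc, hv⟩ := tube_vol m
  refine ⟨8 * 8 ^ m * (c * c)⁻¹, by positivity, fun f F hM hf δ e a hδ hδ1 he => ?_⟩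
  obtain ⟨hv1, hv2⟩ := hv δ e hδ he
  have hcδ : 0 < c * δ ^ m := by positivity
  have h1 := tube_le hM hf hδ hδ1.le he a
  have h3 : ENNReal.ofReal (c * δ ^ m) * ∫⁻ y in tube δ e a, ‖f y‖ₑ ≤
      ENNReal.ofReal (8 * 8 ^ m * δ ^ m) * ∫⁻ y in cyl 8 (8 * δ) e, ‖F y‖ₑ := by
    refine (mul_le_mul' hv1 le_rfl).trans (h1.trans (mul_le_mul' ?_ le_rfl))
    refine (cyl_vol_le (by norm_num) (by positivity) he).trans (ENNReal.ofReal_le_ofReal
      (le_of_eq ?_))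
    rw [show 2 * (4 * δ) = 8 * δ by ring, mul_pow]; ring
  have h4 : ∀ X Y : ℝ≥0∞, ENNReal.ofReal (c * δ ^ m) * X ≤ Y →
      X ≤ ENNReal.ofReal ((c * δ ^ m)⁻¹) * Y := by
    intro X Y hXY
    rw [ENNReal.ofReal_inv_of_pos hcδ]
    rw [← ENNReal.mul_le_iff_le_inv] at *
    · exact hXY
    · exact (ENNReal.ofReal_pos.2 hcδ).ne'
    · exact ENNReal.ofReal_ne_top
  calc (volume (tube δ e a))⁻¹ * ∫⁻ y in tube δ e a, ‖f y‖ₑ
      ≤ ENNReal.ofReal ((c * δ ^ m)⁻¹) * (ENNReal.ofReal ((c * δ ^ m)⁻¹) *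
        (ENNReal.ofReal (8 * 8 ^ m * δ ^ m) * ∫⁻ y in cyl 8 (8 * δ) e, ‖F y‖ₑ)) := by
        refine mul_le_mul' ?_ (h4 _ _ h3)
        rw [ENNReal.ofReal_inv_of_pos hcδ]
        exact ENNReal.inv_le_inv.2 (hv2 a)
    _ = _ := by
        rw [← mul_assoc, ← mul_assoc, ← ENNReal.ofReal_mul (by positivity),
          ← ENNReal.ofReal_mul (by positivity)]
        congr 2
        field_simp

/-- **main theorem** -/
theorem main (m : ℕ) : ∃ C : ℝ, 0 < C ∧ ∀ (p : ℝ), 1 ≤ p → p ≤ m + 1 →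
    ∀ (N : ℕ) (f F : ℕ → L2E (m + 1)) (A : ℕ → Set (E (m + 1))) (h : E (m + 1) → ℝ) (δ : ℝ),
    0 < δ → δ < 1 → (∀ k, Maj (f k) (F k)) → (∀ k, ∀ᵐ x : E (m + 1), ((‖f k x‖ : ℝ) : ℂ) = f k x) →
    (∀ k, ∀ᵐ x : E (m + 1), x ∉ A k → f k x = 0) →
    (∀ a, {k | (A k ∩ closedBall a 2).Nonempty}.encard ≤ N) →
    (∀ᵐ x : E (m + 1), ‖h x‖ₑ ≤ ∑' k, ‖f k x‖ₑ) →
    ∫⁻ e, kakeyaMax δ h (e : E (m + 1)) ^ p ∂(surf (m + 1)) ≤
      ENNReal.ofReal (C * (N : ℝ) ^ (p - 1) * δ ^ (-(m + 1 - p)) *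
        (1 + Real.log (1 / δ)) ^ (p - 1)) * ∑' k, ∫⁻ y, ‖F k y‖ₑ ^ p := by
  obtain ⟨b, hb, hav⟩ := avg_le m
  set D : ℝ := (4 * 16 ^ m) ^ m * ((m + 1) * 2 * 16 ^ m) with hD
  have hD0 : 0 < D := by positivity
  refine ⟨6 ^ m * (1 + b) ^ (m + 1) * D, by positivity, ?_⟩
  intro p hp hpm N f F A h δ hδ hδ1 hM hf hA hN hh
  obtain ⟨J, hJ, hJ2⟩ := exists_J hδ hδ1
  set X : ℕ → sphere (0 : E (m + 1)) 1 → ℝ≥0∞ := fun k e =>
    ∫⁻ y in cyl 8 (8 * δ) (e : E (m + 1)), ‖F k y‖ₑ with hX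
  have hFm : ∀ k, Measurable fun y => ‖F k y‖ₑ := fun k => (Lp.stronglyMeasurable (F k)).enorm
  have hXm : ∀ k, Measurable (X k) := by
    intro k
    have := piece_meas (hFm k) 8 (8 * δ) MeasurableSet.univ
    simpa only [inter_univ] using this
  set B : ℝ≥0∞ := ENNReal.ofReal (b * (δ ^ m)⁻¹) with hB
  have hpt : ∀ e : sphere (0 : E (m + 1)) 1, kakeyaMax δ h (e : E (m + 1)) ^ p ≤
      B ^ p * ((N : ℝ≥0∞) ^ (p - 1) * ∑' k, X k e ^ p) := by
    intro e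
    have he : ‖(e : E (m + 1))‖ = 1 := by simp
    rw [← ENNReal.le_rpow_inv_iff (by linarith : 0 < p)]
    refine iSup_le fun a => ?_
    rw [ENNReal.le_rpow_inv_iff (by linarith : 0 < p)]
    have hfin : {k | (A k ∩ closedBall a 2).Nonempty}.Finite :=
      Set.finite_of_encard_le_coe (hN a)
    set s : Finset ℕ := hfin.toFinset with hs
    have hcard : (s.card : ℝ≥0∞) ≤ N := by
      have h1 := hN a
      rw [← hfin.coe_toFinset, Set.encard_coe_eq_coe_finsetCard] at h1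
      exact_mod_cast h1
    have hz : ∀ k, k ∉ s → (volume (tube δ (e : E (m + 1)) a))⁻¹ *
        ∫⁻ y in tube δ (e : E (m + 1)) a, ‖f k y‖ₑ = 0 := by
      intro k hk
      rw [hs, hfin.mem_toFinset] at hk
      have h1 : ∫⁻ y in tube δ (e : E (m + 1)) a, ‖f k y‖ₑ =
          ∫⁻ y in tube δ (e : E (m + 1)) a, (0 : ℝ≥0∞) := by
        refine lintegral_congr_ae ((ae_restrict_iff' (tube_closed _ _ _).measurableSet).2 ?_)
        filter_upwards [hA k] with y hy1 hy2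
        rw [hy1 fun h => hk ⟨y, h, tube_sub hδ hδ1 he a hy2⟩, enorm_zero]
      rw [h1, lintegral_zero, mul_zero]
    calc ((volume (tube δ (e : E (m + 1)) a))⁻¹ * ∫⁻ y in tube δ (e : E (m + 1)) a, ‖h y‖ₑ) ^ p
        ≤ ((volume (tube δ (e : E (m + 1)) a))⁻¹ *
            ∫⁻ y in tube δ (e : E (m + 1)) a, ∑' k, ‖f k y‖ₑ) ^ p := by
          refine ENNReal.rpow_le_rpow (mul_le_mul' le_rfl ?_) (by linarith)
          exact lintegral_mono_ae (ae_restrict_of_ae hh)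
      _ = (∑' k, (volume (tube δ (e : E (m + 1)) a))⁻¹ *
            ∫⁻ y in tube δ (e : E (m + 1)) a, ‖f k y‖ₑ) ^ p := by
          rw [lintegral_tsum fun k => (Lp.stronglyMeasurable (f k)).enorm.aemeasurable,
            ENNReal.tsum_mul_left]
      _ = (∑ k ∈ s, (volume (tube δ (e : E (m + 1)) a))⁻¹ *
            ∫⁻ y in tube δ (e : E (m + 1)) a, ‖f k y‖ₑ) ^ p := by
          rw [tsum_eq_sum hz]
      _ ≤ (∑ k ∈ s, B * X k e) ^ p :=
          ENNReal.rpow_le_rpow (Finset.sum_le_sum fun k _ =>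
            hav (f k) (F k) (hM k) (hf k) δ e a hδ hδ1 he) (by linarith)
      _ = B ^ p * (∑ k ∈ s, X k e) ^ p := by
          rw [← Finset.mul_sum, ENNReal.mul_rpow_of_nonneg _ _ (by linarith)]
      _ ≤ B ^ p * ((s.card : ℝ≥0∞) ^ (p - 1) * ∑ k ∈ s, X k e ^ p) :=
          mul_le_mul' le_rfl (ENNReal.rpow_sum_le_const_mul_sum_rpow _ _ hp)
      _ ≤ _ := by
          refine mul_le_mul' le_rfl (mul_le_mul' (ENNReal.rpow_le_rpow hcard (by linarith)) ?_)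
          exact ENNReal.sum_le_tsum _
  have hor : ∀ k, ∫⁻ e, X k e ^ p ∂(surf (m + 1)) ≤
      ENNReal.ofReal (((J : ℝ) + 1) ^ (p - 1) * (D * δ ^ ((m + 1) * (p - 1)))) *
        ∫⁻ y, ‖F k y‖ₑ ^ p := fun k => origin_le hδ hδ1 (hFm k) hp hpm hJ
  calc ∫⁻ e, kakeyaMax δ h (e : E (m + 1)) ^ p ∂(surf (m + 1))
      ≤ ∫⁻ e, B ^ p * ((N : ℝ≥0∞) ^ (p - 1) * ∑' k, X k e ^ p) ∂(surf (m + 1)) :=
        lintegral_mono hpt
    _ = B ^ p * ((N : ℝ≥0∞) ^ (p - 1) * ∑' k, ∫⁻ e, X k e ^ p ∂(surf (m + 1))) := by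
        rw [lintegral_const_mul _ ((Measurable.tsum fun k => (hXm k).pow_const p).const_mul _),
          lintegral_const_mul _ (Measurable.tsum fun k => (hXm k).pow_const p),
          lintegral_tsum fun k => ((hXm k).pow_const p).aemeasurable]
    _ ≤ B ^ p * ((N : ℝ≥0∞) ^ (p - 1) * ∑' k,
          ENNReal.ofReal (((J : ℝ) + 1) ^ (p - 1) * (D * δ ^ ((m + 1) * (p - 1)))) *
          ∫⁻ y, ‖F k y‖ₑ ^ p) :=
        mul_le_mul' le_rfl (mul_le_mul' le_rfl (ENNReal.tsum_le_tsum hor))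
    _ = (B ^ p * ((N : ℝ≥0∞) ^ (p - 1) *
          ENNReal.ofReal (((J : ℝ) + 1) ^ (p - 1) * (D * δ ^ ((m + 1) * (p - 1)))))) *
          ∑' k, ∫⁻ y, ‖F k y‖ₑ ^ p := by
        rw [ENNReal.tsum_mul_left]; ring
    _ ≤ _ := by
        refine mul_le_mul' ?_ le_rfl
        have hNr : (N : ℝ≥0∞) ^ (p - 1) = ENNReal.ofReal ((N : ℝ) ^ (p - 1)) := by
          rw [← ENNReal.ofReal_rpow_of_nonneg (by positivity) (by linarith), ENNReal.ofReal_natCast]
        rw [hB, ENNReal.ofReal_rpow_of_nonneg (by positivity) (by linarith), hNr,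
          ← ENNReal.ofReal_mul (by positivity), ← ENNReal.ofReal_mul (by positivity)]
        refine ENNReal.ofReal_le_ofReal ?_
        have hL : 0 ≤ Real.log (1 / δ) := Real.log_nonneg (by rw [le_div_iff₀ hδ]; linarith)
        have e1 : (b * (δ ^ m)⁻¹) ^ p = b ^ p * δ ^ (-(m * p)) := by
          rw [Real.mul_rpow hb.le (by positivity), Real.inv_rpow (by positivity),
            ← Real.rpow_natCast, ← Real.rpow_mul hδ.le, ← Real.rpow_neg hδ.le]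
        have e2 : δ ^ (-(m * p)) * δ ^ ((m + 1) * (p - 1)) = δ ^ (-(m + 1 - p)) := by
          rw [← Real.rpow_add hδ]; congr 1; ring
        have e3 : ((J : ℝ) + 1) ^ (p - 1) ≤ 6 ^ m * (1 + Real.log (1 / δ)) ^ (p - 1) := by
          calc ((J : ℝ) + 1) ^ (p - 1) ≤ (6 * (1 + Real.log (1 / δ))) ^ (p - 1) :=
                Real.rpow_le_rpow (by positivity) hJ2 (by linarith)
            _ = 6 ^ (p - 1) * (1 + Real.log (1 / δ)) ^ (p - 1) :=
                Real.mul_rpow (by norm_num) (by linarith)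
            _ ≤ _ := by
                have : (6 : ℝ) ^ (p - 1) ≤ 6 ^ (m : ℝ) :=
                  Real.rpow_le_rpow_of_exponent_le (by norm_num) (by linarith)
                rw [Real.rpow_natCast] at this
                have h0 : 0 ≤ (1 + Real.log (1 / δ)) ^ (p - 1) :=
                  Real.rpow_nonneg (by linarith) _
                exact mul_le_mul_of_nonneg_right this h0
        have e4 : b ^ p ≤ (1 + b) ^ (m + 1) := by
          calc b ^ p ≤ (1 + b) ^ p := Real.rpow_le_rpow hb.le (by linarith) (by linarith)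
            _ ≤ (1 + b) ^ ((m : ℝ) + 1) :=
                Real.rpow_le_rpow_of_exponent_le (by linarith) hpm
            _ = _ := by
                have : ((m : ℝ) + 1) = ((m + 1 : ℕ) : ℝ) := by push_cast; rfl
                rw [this, Real.rpow_natCast]
        have h0 : 0 ≤ (1 + Real.log (1 / δ)) ^ (p - 1) := Real.rpow_nonneg (by linarith) _
        rw [e1]
        calc b ^ p * δ ^ (-(m * p)) * ((N : ℝ) ^ (p - 1) * (((J : ℝ) + 1) ^ (p - 1) *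
              (D * δ ^ ((m + 1) * (p - 1)))))
            = b ^ p * ((J : ℝ) + 1) ^ (p - 1) * ((N : ℝ) ^ (p - 1) * D *
              (δ ^ (-(m * p)) * δ ^ ((m + 1) * (p - 1)))) := by ring
          _ ≤ (1 + b) ^ (m + 1) * (6 ^ m * (1 + Real.log (1 / δ)) ^ (p - 1)) *
              ((N : ℝ) ^ (p - 1) * D * (δ ^ (-(m * p)) * δ ^ ((m + 1) * (p - 1)))) := by
              gcongr
          _ = _ := by rw [e2]; ring

end Pool.Agent.W2helper16.KM
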